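import Mathlib
import Pool.Agent.X170.Arc.Trace

set_option autoImplicit false

open MeasureTheory
open scoped ComplexOrder

namespace Pool.Agent.Results.MP_81910f_an.SharpArcs

/-- The tracial states of `C*(G)`: the normalised positive definite class functions on `G`. -/
def TracialStates (G : Subgroup (Equiv.Perm ℚ)) : Set (G → ℂ) :=
  {ψ : G → ℂ | ψ 1 = 1 ∧ (∀ g h : G, ψ (h * g * h⁻¹) = ψ g) ∧
    ∀ (s : Finset G) (c : G → ℂ), 0 ≤ ∑ i ∈ s, ∑ j ∈ s, star (c j) * c i * ψ (j⁻¹ * i)}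

/-- The measure `μ` on the circle `ℝ/ℤ` is the spectral distribution of the unitary `u` in the
state `φ`: its Fourier coefficients are the values `φ (u ^ n)`. -/
def IsSpectralDistribution {G : Subgroup (Equiv.Perm ℚ)} (φ : G → ℂ) (u : G)
    (μ : Measure UnitAddCircle) : Prop :=
  IsProbabilityMeasure μ ∧ ∀ n : ℤ, ∫ x, (fourier n x : ℂ) ∂μ = φ (u ^ n)

/-- The traces of the spectral projection of `u` on the arc `{e^(2πix) : t ≤ ‖x‖}`, for all tracial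
states. -/
def Masses (G : Subgroup (Equiv.Perm ℚ)) (u : G) (t : ℝ) : Set ℝ :=
  {v : ℝ | ∃ φ ∈ TracialStates G, ∃ μ : Measure UnitAddCircle,
    IsSpectralDistribution φ u μ ∧ v = μ.real {x | t ≤ ‖x‖}}

/-- The same for the conditionally finite-dimensional tracial states. -/
def MassesFD (G : Subgroup (Equiv.Perm ℚ)) (u : G) (t : ℝ) : Set ℝ :=
  {v : ℝ | ∃ φ ∈ TracialStates G,
    FiniteDimensional ℂ (Submodule.span ℂ {F : G → ℂ | ∃ n : G,
        (∃ r : ℚ, ∀ x : ℚ, (n : Equiv.Perm ℚ) x = x + r) ∧ F = fun x => φ (n * x)}) ∧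
    ∃ μ : Measure UnitAddCircle, IsSpectralDistribution φ u μ ∧ v = μ.real {x | t ≤ ‖x‖}}

/-- **Spectral projections of the tracial states of `C*(ℤ² ⋉ ℤ[1/6])` form a staircase.** Let `G` be
the group generated by `x ↦ 2 x`, `x ↦ 3 x`, `x ↦ x + 1` on `ℚ` and let `u` be the translation by `1`.
For `t ≤ 9/19` outside seven gaps of total length less than `0.0214`, the greatest trace of the
spectral projection of `u` on the arc `{e^(2πix) : t ≤ ‖x‖}`, over all tracial states, is `1`, `2/3`,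
`1/2`, `1/3`, `1/5`, `1/6`, `1/8`, `1/9`, successively, and it is attained by a conditionally
finite-dimensional tracial state. -/
theorem result (s2 s3 t0 : Equiv.Perm ℚ) (h2 : ∀ x : ℚ, s2 x = 2 * x) (h3 : ∀ x : ℚ, s3 x = 3 * x)
    (ht0 : ∀ x : ℚ, t0 x = x + 1) (G : Subgroup (Equiv.Perm ℚ))
    (hG : G = Subgroup.closure {s2, s3, t0}) (u : G)
    (hu : ∀ x : ℚ, (u : Equiv.Perm ℚ) x = x + 1) (t : ℝ) :
    (t ≤ 1 / 5 → IsGreatest (Masses G u t) 1 ∧ 1 ∈ MassesFD G u t) ∧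
    (5 / 24 ≤ t → t ≤ 2 / 7 → IsGreatest (Masses G u t) (2 / 3) ∧ 2 / 3 ∈ MassesFD G u t) ∧
    (31 / 108 ≤ t → t ≤ 2 / 5 → IsGreatest (Masses G u t) (1 / 2) ∧ 1 / 2 ∈ MassesFD G u t) ∧
    (29 / 72 ≤ t → t ≤ 3 / 7 → IsGreatest (Masses G u t) (1 / 3) ∧ 1 / 3 ∈ MassesFD G u t) ∧
    (31 / 72 ≤ t → t ≤ 5 / 11 → IsGreatest (Masses G u t) (1 / 5) ∧ 1 / 5 ∈ MassesFD G u t) ∧
    (11 / 24 ≤ t → t ≤ 6 / 13 → IsGreatest (Masses G u t) (1 / 6) ∧ 1 / 6 ∈ MassesFD G u t) ∧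
    (25 / 54 ≤ t → t ≤ 8 / 17 → IsGreatest (Masses G u t) (1 / 8) ∧ 1 / 8 ∈ MassesFD G u t) ∧
    (17 / 36 ≤ t → t ≤ 9 / 19 → IsGreatest (Masses G u t) (1 / 9) ∧ 1 / 9 ∈ MassesFD G u t) := by
  have key : ∀ v : ℝ, Pool.Agent.X170.Arc.Att t v →
      IsGreatest (Masses G u t) v ∧ v ∈ MassesFD G u t := fun v h =>
    Pool.Agent.X170.Arc.trans h2 h3 ht0 hG hu h
  exact ⟨fun a => key _ (Pool.Agent.X170.Arc.p0 a),
    fun a b => key _ (Pool.Agent.X170.Arc.p1 a b), fun a b => key _ (Pool.Agent.X170.Arc.p2 a b),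
    fun a b => key _ (Pool.Agent.X170.Arc.p3 a b), fun a b => key _ (Pool.Agent.X170.Arc.p4 a b),
    fun a b => key _ (Pool.Agent.X170.Arc.p5 a b), fun a b => key _ (Pool.Agent.X170.Arc.p6 a b),
    fun a b => key _ (Pool.Agent.X170.Arc.p7 a b)⟩

end Pool.Agent.Results.MP_81910f_an.SharpArcs
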