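import Pool.Agent.X101.SD.Fin3

/-!
# Extreme traces of `C*(ℤ² ⋉ ℤ[1/6])` are spectrally singular to all laws of random digits

Let `G` be the group generated by `x ↦ 2 x`, `x ↦ 3 x`, `x ↦ x + 1` on `ℚ`, a copy of
`ℤ² ⋉ ℤ[1/6]`, and let `u` be the translation by `1`. The tracial states of `C*(G)` are the
normalised positive definite class functions `φ` on `G`; the spectral measure of `u` in `φ` is the
measure on the circle with the Fourier coefficients `φ (u ^ n)`.

For an extreme tracial state `φ` other than the regular trace: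

(1) the spectral measure of `u` is singular to every finite measure `ρ` on the circle such that for
some `b = 2 ^ i 3 ^ j` the averages of the Fourier coefficients of `ρ` over the progressions
`k + h b ^ n`, `n < N`, tend to zero for all integers `k` and `h ≠ 0`;

(2) it is singular to the distribution of `X + ∑ ω_k a ^ (-k-1)` modulo one, where `X` is any random
variable, `a ≥ 2` is any base, and the random digits `ω_k` are independent of each other and of `X`,
with arbitrary distributions such that the sequence of digits has no atoms.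

(3) The regular trace is the only tracial state (extreme or not) for which the moments `φ (u ^ n)`
are at most a constant times the absolute values of those of such a number `∑ ω_k a ^ (-k-1)`.

Proof. If the measure is not singular to `ρ`, then its invariance under `x ↦ b x` shows that it is at
least a multiple of Lebesgue measure; so it has no atoms, the trace vanishes outside the
translations, and a multiple of the regular trace splits off. The measures in (2) satisfy the
condition in (1) with `b = 2` or `b = 3`.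
-/

set_option autoImplicit false

open MeasureTheory Filter Topology
open scoped ComplexOrder

namespace Pool.Agent.Results.MP_81910f_an.SpectralSingularity

/-- the tracial states of the group algebra -/
def TracialStates (G : Subgroup (Equiv.Perm ℚ)) : Set (G → ℂ) :=
  {ψ : G → ℂ | ψ 1 = 1 ∧ (∀ g h : G, ψ (h * g * h⁻¹) = ψ g) ∧
    ∀ (s : Finset G) (c : G → ℂ), 0 ≤ ∑ i ∈ s, ∑ j ∈ s, star (c j) * c i * ψ (j⁻¹ * i)}

/-- the regular trace -/
noncomputable def Regular (G : Subgroup (Equiv.Perm ℚ)) : G → ℂ :=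
  Set.indicator ({1} : Set G) (fun _ => (1 : ℂ))

/-- the averages of the Fourier coefficients over the progressions `k + h b ^ n` tend to zero -/
def Spread (b : ℕ) (ρ : Measure UnitAddCircle) : Prop :=
  ∀ k h : ℤ, h ≠ 0 → Tendsto (fun N : ℕ => (∑ n ∈ Finset.range N,
    ∫ x, (fourier (k + h * (b : ℤ) ^ n) x : ℂ) ∂ρ) / (N : ℂ)) atTop (𝓝 0)

/-- the number in `[0,1]` with the digits `ω 0, ω 1, …` in base `a` -/
noncomputable def num (a : ℕ) (ω : ℕ → Fin a) : ℝ := ∑' k, ((ω k : ℕ) : ℝ) / (a : ℝ) ^ (k + 1)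

/-- the image on the circle of the product of the measure `κ` on the real line and the infinite
product of the measures `ν k` under `(x, ω) ↦ x + num a ω` -/
noncomputable def DigitLaw (a : ℕ) (κ : Measure ℝ) (ν : ℕ → Measure (Fin a)) :
    Measure UnitAddCircle :=
  (κ.prod (Measure.infinitePi ν)).map
    fun p : ℝ × (ℕ → Fin a) => ((p.1 + num a p.2 : ℝ) : UnitAddCircle)

theorem result (s2 s3 t : Equiv.Perm ℚ) (h2 : ∀ x : ℚ, s2 x = 2 * x) (h3 : ∀ x : ℚ, s3 x = 3 * x)
    (ht : ∀ x : ℚ, t x = x + 1) (G : Subgroup (Equiv.Perm ℚ))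
    (hG : G = Subgroup.closure {s2, s3, t}) (u : G)
    (hu : ∀ x : ℚ, (u : Equiv.Perm ℚ) x = x + 1) :
    (∀ φ ∈ Set.extremePoints ℝ (TracialStates G), φ ≠ Regular G →
      ∀ μ : Measure UnitAddCircle, IsFiniteMeasure μ →
        (∀ n : ℤ, ∫ x, (fourier n x : ℂ) ∂μ = φ (u ^ n)) →
        (∀ (i j : ℕ) (ρ : Measure UnitAddCircle), IsFiniteMeasure ρ → Spread (2 ^ i * 3 ^ j) ρ →
          μ ⟂ₘ ρ) ∧
        (∀ a : ℕ, 2 ≤ a → ∀ κ : Measure ℝ, IsFiniteMeasure κ → ∀ ν : ℕ → Measure (Fin a),
          (∀ k, IsProbabilityMeasure (ν k)) → (∀ ω, Measure.infinitePi ν {ω} = 0) →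
          μ ⟂ₘ DigitLaw a κ ν)) ∧
    (∀ φ ∈ TracialStates G, ∀ a : ℕ, 2 ≤ a → ∀ ν : ℕ → Measure (Fin a),
      (∀ k, IsProbabilityMeasure (ν k)) → (∀ ω, Measure.infinitePi ν {ω} = 0) → ∀ C : ℝ,
      (∀ n : ℕ, 1 ≤ n → ‖φ (u ^ n)‖ ≤ C * ‖∫ ω, Complex.exp
        ((2 * Real.pi * (n * num a ω) : ℝ) * Complex.I) ∂(Measure.infinitePi ν)‖) →
      φ = Regular G) := by
  have hpow : ∀ (τ : ℤ → G), (∀ (k : ℤ) (x : ℚ), (τ k : Equiv.Perm ℚ) x = x + k) →
      ∀ n : ℤ, u ^ n = τ n := by
    intro τ hτ n
    have h1 : u = τ 1 := by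
      apply Subtype.ext
      apply Equiv.ext
      intro x
      rw [hu, hτ]; norm_num
    have h4 : ∀ m : ℕ, (τ 1) ^ m = τ m := by
      intro m
      induction m with
      | zero => rw [pow_zero]; exact (Pool.Agent.W763.Tr.tau_zero hτ).symm
      | succ m ih =>
        rw [pow_succ, ih, Pool.Agent.W763.Tr.tau_add hτ]
        congr 1
    rw [h1]
    rcases Int.eq_nat_or_neg n with ⟨m, h | h⟩
    · rw [h, zpow_natCast, h4]
    · rw [h, zpow_neg, zpow_natCast, h4, Pool.Agent.W763.Tr.tau_inv hτ]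
  refine ⟨fun φ hφ hne μ hfin hμ => ?_, fun φ hφ a ha ν hν hat C hC => ?_⟩
  · obtain ⟨h1, hcl, hpd⟩ := hφ.1
    obtain ⟨τ, S6, μ', D⟩ := Pool.Agent.TH654.FC.data_of h2 h3 ht hG h1 hcl hpd
    have hp := D.prob
    have he : μ = μ' := Pool.Agent.X101.SD.spectral_unique fun n => by
      rw [hμ, D.hμ, hpow τ D.hτ]
    subst he
    exact ⟨fun i j ρ hρ hs => Pool.Agent.X101.SD.singular_spread D hφ hne i j ρ hs,
      fun a ha κ hκ ν hν hat => Pool.Agent.X101.SD.singular_law D hφ hne ha κ ν hat⟩
  · obtain ⟨h1, hcl, hpd⟩ := hφ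
    obtain ⟨τ, S6, μ', D⟩ := Pool.Agent.TH654.FC.data_of h2 h3 ht hG h1 hcl hpd
    refine Pool.Agent.X101.SD.dominated D ha ν hat C fun n hn => ?_
    have h5 := hC n hn
    rw [← zpow_natCast, hpow τ D.hτ] at h5
    exact h5

end Pool.Agent.Results.MP_81910f_an.SpectralSingularity
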