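import Pool.Agent.X170.Spec.Main
import Pool.Agent.TH463.UQ.Trace

/-!
# The large values of the tracial states of `C*(ℤ² ⋉ ℤ[1/6])` at the powers of a translation

Let `G` be the group generated by `x ↦ 2 x`, `x ↦ 3 x`, `x ↦ x + 1` on `ℚ`, a copy of
`ℤ² ⋉ ℤ[1/6]`.  The tracial states of `C*(G)` are the normalised positive definite class functions
`φ` on `G`.  If `φ` is not the regular trace and `g ≠ 1` is a translation, then for every `K` the
number of `|n| ≤ N` with `|φ (g ^ n)| ≥ δ` grows faster than `(log N) ^ K`, for some `δ > 0`.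

The theorem on the Fourier coefficients of the measures on the circle invariant under `x ↦ 2 x` and
`x ↦ 3 x` is `Pool.Agent.X170.Spec.growth` (helper170).
-/

set_option autoImplicit false

open MeasureTheory Filter Topology
open scoped ComplexOrder

namespace Pool.Agent.Results.MP_81910f_an.TraceLargeSpectrum

open Pool.Agent.W763.Tr Pool.Agent.TH654.FC Pool.Agent.TH463.UQ

/-- The tracial states of `C*(G)`: the normalised positive definite class functions on `G`. -/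
def TracialStates (G : Subgroup (Equiv.Perm ℚ)) : Set (G → ℂ) :=
  {ψ : G → ℂ | ψ 1 = 1 ∧ (∀ g h : G, ψ (h * g * h⁻¹) = ψ g) ∧
    ∀ (s : Finset G) (c : G → ℂ), 0 ≤ ∑ i ∈ s, ∑ j ∈ s, star (c j) * c i * ψ (j⁻¹ * i)}

/-- The regular trace: `1` at the identity and `0` elsewhere. -/
noncomputable def regularTrace (G : Subgroup (Equiv.Perm ℚ)) : G → ℂ :=
  Set.indicator ({1} : Set G) (fun _ => (1 : ℂ))

/-- `g` is a translation `x ↦ x + r` different from the identity. -/
def IsNontrivialTranslation {G : Subgroup (Equiv.Perm ℚ)} (g : G) : Prop :=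
  g ≠ 1 ∧ ∃ r : ℚ, ∀ x : ℚ, (g : Equiv.Perm ℚ) x = x + r

/-- The set of the integers `n`, `|n| ≤ N`, with `|φ (g ^ n)| ≥ δ`. -/
def largeValues {G : Subgroup (Equiv.Perm ℚ)} (φ : G → ℂ) (g : G) (N : ℕ) (δ : ℝ) : Set ℤ :=
  {n : ℤ | |n| ≤ (N : ℤ) ∧ δ ≤ ‖φ (g ^ n)‖}

lemma irr23 : Irrational (Real.log (2 : ℕ) / Real.log (3 : ℕ)) := by
  rintro ⟨r, hr⟩
  have h2 : (0 : ℝ) < Real.log 2 := Real.log_pos (by norm_num)
  have h3 : (0 : ℝ) < Real.log 3 := Real.log_pos (by norm_num)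
  have hr0 : (0 : ℝ) < r := by rw [hr]; push_cast; positivity
  have hr0' : 0 < r := by exact_mod_cast hr0
  have hnum : 0 < r.num := Rat.num_pos.2 hr0'
  obtain ⟨a, ha⟩ := Int.eq_ofNat_of_zero_le hnum.le
  have e : (a : ℝ) * Real.log 3 = (r.den : ℝ) * Real.log 2 := by
    have h4 : ((r : ℚ) : ℝ) = (a : ℝ) / r.den := by
      conv_lhs => rw [← Rat.num_div_den r]
      rw [ha]
      push_cast
      rfl
    rw [h4] at hr
    push_cast at hr
    have hd : (r.den : ℝ) ≠ 0 := by exact_mod_cast r.den_ne_zero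
    field_simp at hr
    linarith
  have e2 : (3 : ℝ) ^ a = 2 ^ r.den := by
    have h5 : Real.log ((3 : ℝ) ^ a) = Real.log (2 ^ r.den) := by
      rw [Real.log_pow, Real.log_pow, e]
    exact Real.log_injOn_pos (by simp) (by simp) h5
  have e3 : 3 ^ a = 2 ^ r.den := by exact_mod_cast e2
  have h6 : Even (2 ^ r.den) := (Nat.even_pow.2 ⟨even_two, r.den_ne_zero⟩)
  rw [← e3, Nat.even_pow] at h6
  exact absurd h6.1 (by decide)

section

variable {G : Subgroup (Equiv.Perm ℚ)} {τ : ℤ → G} {φ : G → ℂ} {S6 : G} {μ : Measure UnitAddCircle}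

/-- powers of translations, all integral exponents -/
lemma zpow_trans {g : G} {r : ℚ} (hg : ∀ x, (g : Equiv.Perm ℚ) x = x + r) (n : ℤ) (x : ℚ) :
    ((g ^ n : G) : Equiv.Perm ℚ) x = x + n * r := by
  have hnat : ∀ (k : ℕ) (y : ℚ), ((g ^ k : G) : Equiv.Perm ℚ) y = y + k * r := by
    intro k
    induction k with
    | zero => intro y; simp
    | succ k ih =>
      intro y
      rw [pow_succ, Subgroup.coe_mul, Equiv.Perm.mul_apply, hg, ih]
      push_cast; ring
  obtain ⟨k, rfl | rfl⟩ := n.eq_nat_or_neg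
  · rw [zpow_natCast, hnat]; push_cast; ring
  · rw [zpow_neg, zpow_natCast, Subgroup.coe_inv, Equiv.Perm.inv_eq_iff_eq, hnat]
    push_cast; ring

/-- the values on the powers of a translation -/
lemma zpow' (D : Data G τ φ S6 μ) {g : G} (hg1 : g ≠ 1) {r : ℚ}
    (hg : ∀ x, (g : Equiv.Perm ℚ) x = x + r) :
    ∃ m : ℤ, m ≠ 0 ∧ ∀ n : ℤ, φ (g ^ n) = φ (τ (m * n)) := by
  obtain ⟨m, k, hr⟩ := D.six hg
  refine ⟨m, ?_, fun n => ?_⟩
  · intro hm
    apply hg1
    apply Subtype.ext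
    apply Equiv.ext
    intro x
    rw [hg, hr, hm]
    simp
  refine phi_trans D.hτ D.hcl S6 D.hS6 (g ^ n) (m * n) k fun x => ?_
  rw [zpow_trans hg, hr]
  push_cast; ring

/-- values at negative integers -/
lemma hneg (D : Data G τ φ S6 μ) (n : ℤ) : φ (τ (-n)) = star (φ (τ n)) := by
  rw [← D.hμ, ← D.hμ]
  have : ∀ x : UnitAddCircle, (fourier (-n) x : ℂ) = (starRingEnd ℂ) (fourier n x) := by
    intro x
    rw [fourier_neg]
  simp_rw [this]
  exact integral_conj

/-- the image measure has the values on the powers of `g` as its Fourier coefficients, up to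
conjugation -/
lemma norm_image (D : Data G τ φ S6 μ) {m : ℤ} (n : ℤ) :
    ‖∫ x, (fourier n x : ℂ) ∂(μ.map (fun x : UnitAddCircle => m.natAbs • x))‖ =
      ‖φ (τ (m * n))‖ := by
  rw [integral_map_nsmul, D.hμ]
  rcases Int.natAbs_eq m with h | h
  · rw [← h, mul_comm]
  · have : n * (m.natAbs : ℤ) = -(m * n) := by
      conv_rhs => rw [h]
      ring
    rw [this, hneg D, norm_star]

lemma inv_image (D : Data G τ φ S6 μ) (k : ℕ) :
    Pool.Agent.X170.Log2.Inv 2 3 (μ.map (fun x : UnitAddCircle => k • x)) := by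
  have hk : Measurable (fun x : UnitAddCircle => k • x) := (continuous_nsmul k).measurable
  have key : ∀ j : ℕ, MeasurePreserving (fun x : UnitAddCircle => j • x) μ μ →
      MeasurePreserving (fun x : UnitAddCircle => j • x)
        (μ.map (fun x : UnitAddCircle => k • x)) (μ.map (fun x : UnitAddCircle => k • x)) := by
    intro j hj
    have hjm : Measurable (fun x : UnitAddCircle => j • x) := (continuous_nsmul j).measurable
    refine ⟨hjm, ?_⟩
    rw [Measure.map_map hjm hk]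
    have e : (fun x : UnitAddCircle => j • x) ∘ (fun x : UnitAddCircle => k • x) =
        (fun x : UnitAddCircle => k • x) ∘ (fun x : UnitAddCircle => j • x) := by
      funext x
      simp only [Function.comp_apply]
      rw [smul_comm]
    rw [e, ← Measure.map_map hk hjm, hj.map_eq]
  exact ⟨key 2 D.mp2, key 3 D.mp3⟩

lemma core (D : Data G τ φ S6 μ) {g : G} {m : ℤ} (hval : ∀ n : ℤ, φ (g ^ n) = φ (τ (m * n)))
    {k : ℤ} (hk : k ≠ 0) (hne : φ (g ^ k) ≠ 0) (l : ℕ) :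
    ∃ κ : ℝ, 0 < κ ∧ ∀ᶠ N : ℕ in atTop, κ * (Real.log N) ^ (4 * l) ≤
      ((largeValues φ g N (‖φ (g ^ k)‖ ^ (2 * l) / 3)).ncard : ℝ) := by
  have := D.prob
  set ν := μ.map (fun x : UnitAddCircle => m.natAbs • x) with hν
  have hprob : IsProbabilityMeasure ν :=
    Measure.isProbabilityMeasure_map (continuous_nsmul m.natAbs).measurable.aemeasurable
  have hnorm : ∀ n : ℤ, ‖∫ x, (fourier n x : ℂ) ∂ν‖ = ‖φ (g ^ n)‖ := fun n => by
    rw [hν, norm_image D, hval]
  have hc : ∫ x, (fourier k x : ℂ) ∂ν ≠ 0 := by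
    rw [← norm_ne_zero_iff, hnorm, norm_ne_zero_iff]
    exact hne
  obtain ⟨κ, hκ, hev⟩ := Pool.Agent.X170.Spec.growth (p := 2) (q := 3) le_rfl (by norm_num) irr23
    (inv_image D m.natAbs) hk l hc
  refine ⟨κ, hκ, ?_⟩
  filter_upwards [hev] with N hN
  have hset : Pool.Agent.X170.Spec.Big ν N (‖∫ x, (fourier k x : ℂ) ∂ν‖ ^ (2 * l) / 3) =
      largeValues φ g N (‖φ (g ^ k)‖ ^ (2 * l) / 3) := by
    ext n
    unfold Pool.Agent.X170.Spec.Big largeValues
    simp only [Set.mem_ofPred_eq, hnorm]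
  rw [← hset]
  exact hN

end

/-- **The large values of the tracial states grow faster than any power of the logarithm.**
Let `G` be the group generated by `x ↦ 2 x`, `x ↦ 3 x`, `x ↦ x + 1` on `ℚ`, let `φ` be a tracial
state and `g` a nontrivial translation.
(1) If `φ (g ^ k) ≠ 0`, `k ≠ 0`, then for each `l` there is `κ > 0` such that for all large `N` at
least `κ (log N) ^ (4 l)` integers `|n| ≤ N` satisfy `|φ (g ^ n)| ≥ |φ (g ^ k)| ^ (2 l) / 3`.
(2) If `φ` is not the regular trace, then for each `K` there are `δ, κ > 0` such that for all large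
`N` at least `κ (log N) ^ K` integers `|n| ≤ N` satisfy `|φ (g ^ n)| ≥ δ`.
(3) If there is `K` such that for each `δ > 0` there is `C` such that for infinitely many `N` at
most `C (log N) ^ K` integers `|n| ≤ N` satisfy `|φ (g ^ n)| ≥ δ`, then `φ` is the regular trace. -/
theorem result (s2 s3 t : Equiv.Perm ℚ) (h2 : ∀ x : ℚ, s2 x = 2 * x) (h3 : ∀ x : ℚ, s3 x = 3 * x)
    (ht : ∀ x : ℚ, t x = x + 1) (G : Subgroup (Equiv.Perm ℚ))
    (hG : G = Subgroup.closure {s2, s3, t}) (φ : G → ℂ) (hφ : φ ∈ TracialStates G)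
    (g : G) (hg : IsNontrivialTranslation g) :
    (∀ k : ℤ, k ≠ 0 → φ (g ^ k) ≠ 0 → ∀ l : ℕ, ∃ κ : ℝ, 0 < κ ∧ ∀ᶠ N : ℕ in atTop,
      κ * (Real.log N) ^ (4 * l) ≤
        ((largeValues φ g N (‖φ (g ^ k)‖ ^ (2 * l) / 3)).ncard : ℝ)) ∧
    (φ ≠ regularTrace G → ∀ K : ℕ, ∃ δ : ℝ, 0 < δ ∧ ∃ κ : ℝ, 0 < κ ∧ ∀ᶠ N : ℕ in atTop,
      κ * (Real.log N) ^ K ≤ ((largeValues φ g N δ).ncard : ℝ)) ∧
    (∀ K : ℕ, (∀ δ : ℝ, 0 < δ → ∃ C : ℝ, ∃ᶠ N : ℕ in atTop,
      ((largeValues φ g N δ).ncard : ℝ) ≤ C * (Real.log N) ^ K) → φ = regularTrace G) := by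
  obtain ⟨h1, hcl, hpd⟩ := hφ
  obtain ⟨τ, S6, μ, D⟩ := data_of h2 h3 ht hG h1 hcl hpd
  obtain ⟨hg1, r, hgr⟩ := hg
  obtain ⟨m, hm, hval⟩ := zpow' D hg1 hgr
  have hlog : Tendsto (fun N : ℕ => Real.log N) atTop atTop :=
    Real.tendsto_log_atTop.comp tendsto_natCast_atTop_atTop
  have part2 : φ ≠ regularTrace G → ∀ K : ℕ, ∃ δ : ℝ, 0 < δ ∧ ∃ κ : ℝ, 0 < κ ∧
      ∀ᶠ N : ℕ in atTop, κ * (Real.log N) ^ K ≤ ((largeValues φ g N δ).ncard : ℝ) := by
    intro hne K
    obtain ⟨k, hk, hk0⟩ : ∃ k : ℤ, k ≠ 0 ∧ φ (g ^ k) ≠ 0 := by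
      by_contra hcon
      push Not at hcon
      apply hne
      have hz' : ∀ n : ℤ, n ≠ 0 → φ (τ ((m.natAbs : ℕ) * n)) = 0 := by
        intro n hn
        rcases Int.natAbs_eq m with h | h
        · rw [← h, ← hval]
          exact hcon n hn
        · have e : ((m.natAbs : ℕ) : ℤ) * n = m * (-n) := by
            conv_rhs => rw [h]
            ring
          rw [e, ← hval]
          exact hcon (-n) (neg_ne_zero.2 hn)
      have hz : ∀ n : ℤ, n ≠ 0 → φ (τ n) = 0 :=
        all_zero D.hτ D.h1 D.hpd D.h2 (Int.natAbs_pos.2 hm) hz'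
      funext x
      unfold regularTrace
      by_cases hx : x = 1
      · rw [Set.indicator_of_mem (by simpa using hx), hx, D.h1]
      · rw [Set.indicator_of_notMem (by simpa using hx)]
        exact eq_regular D.hτ D.h1 D.hcl D.hpd S6 D.hS6 D.hform hz x hx
    obtain ⟨κ, hκ, hev⟩ := core D hval hk hk0 K
    have hpos := norm_pos_iff.2 hk0
    refine ⟨‖φ (g ^ k)‖ ^ (2 * K) / 3, by positivity, κ, hκ, ?_⟩
    filter_upwards [hev, hlog.eventually_ge_atTop 1] with N hN h5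
    refine le_trans ?_ hN
    have h6 : (Real.log N) ^ K ≤ (Real.log N) ^ (4 * K) := pow_le_pow_right₀ h5 (by omega)
    exact mul_le_mul_of_nonneg_left h6 hκ.le
  refine ⟨fun k hk hk0 l => core D hval hk hk0 l, part2, fun K h => ?_⟩
  by_contra hne
  obtain ⟨δ, hδ, κ, hκ, hev⟩ := part2 hne (K + 1)
  obtain ⟨C, hC⟩ := h δ hδ
  obtain ⟨N, h5, h6, h7, h8⟩ := (hC.and_eventually (hev.and
    ((hlog.eventually_ge_atTop 1).and (hlog.eventually_gt_atTop (C / κ))))).exists
  have h9 : 0 < (Real.log N) ^ K := by positivity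
  have h10 : κ * (Real.log N) ^ (K + 1) ≤ C * (Real.log N) ^ K := h6.trans h5
  rw [pow_succ, mul_comm ((Real.log N) ^ K), ← mul_assoc] at h10
  have h11 := le_of_mul_le_mul_right h10 h9
  rw [div_lt_iff₀ hκ] at h8
  linarith

end Pool.Agent.Results.MP_81910f_an.TraceLargeSpectrum
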